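import Pool.Agent.W477.CL.Stms

/-!
The limit of a chain of finite partial functions.
-/

set_option maxHeartbeats 1000000
set_option linter.all false

namespace Pool.Agent.W45.OC

open FirstOrder FirstOrder.Language
open Pool.Agent.Helper672.ZFA hiding IsOrdPair IsPair Mem
open Pool.Agent.H310
open Pool.Agent.W924
open Pool.Agent.W477.CL

universe u
variable {M : Type u} [L.Structure M] [IsModel M]

/-- finite sets of pairs -/
abbrev FP (M : Type u) [L.Structure M] [IsModel M] : Type _ := FinS M (INat M × INat M)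

theorem int_R {W : INat M → IPow M (INat M × INat M) → Prop}
    (hW : Int M (fun q : INat M × IPow M (INat M × INat M) => W q.1 q.2)) :
    Int M (fun q : (INat M × FP M) × FP M =>
      q.1.2.1 ⊆ q.2.1 ∧ W q.1.1 q.2.1 ∧ ∃ y : INat M, (q.1.1, y) ∈ q.2.1) := by
  refine Int.and ?_ (Int.and ?_ (Int.ex ?_))
  · exact Int.subset (IntF.val (IntF.snd IntF.fst')) (IntF.val IntF.snd')
  · exact Int.comp₂ (p := W) hW (IntF.fst IntF.fst') (IntF.val IntF.snd')
  · exact Int.mem (IntF.pair (IntF.fst (IntF.fst IntF.fst')) IntF.snd') (IntF.val (IntF.snd IntF.fst'))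

theorem int_Q {Q : IPow M (INat M × INat M) → Prop} (hQ : Int M Q) :
    Int M (fun q : INat M × FP M => Q q.2.1) :=
  Int.comp (p := Q) hQ (IntF.val IntF.snd')

theorem int_mono {g : INat M → FP M} (hg : IntF M g) :
    Int M (fun n : INat M => ∀ m : INat M, m ≤ n → (g m).1 ⊆ (g n).1) := by
  refine Int.all (Int.imp (Int.leN IntF.snd' IntF.fst') (Int.subset (IntF.val ?_) (IntF.val ?_)))
  · exact IntF.comp (g := g) hg IntF.snd'
  · exact IntF.comp (g := g) hg IntF.fst'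

theorem int_f {g : INat M → FP M} (hg : IntF M g) :
    IntF M (fun x : INat M => the (fun y : INat M => (x, y) ∈ (g x.succ).1) 0) := by
  refine IntF.the (p := fun (x y : INat M) => (x, y) ∈ (g x.succ).1) ?_ (IntF.const _)
  refine Int.mem (IntF.pair IntF.fst' IntF.snd') (IntF.val ?_)
  exact IntF.comp (g := g) hg (IntF.succ IntF.fst')

theorem chain_step {Q : IPow M (INat M × INat M) → Prop}
    {W : INat M → IPow M (INat M × INat M) → Prop} {p₀ : IPow M (INat M × INat M)}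
    (hQ : Int M Q) (hW : Int M (fun q : INat M × IPow M (INat M × INat M) => W q.1 q.2))
    (h0 : Q p₀) (hfin : ∀ p, Q p → IFin p)
    (hstep : ∀ p n, Q p → ∃ p', Q p' ∧ p ⊆ p' ∧ W n p' ∧ ∃ y, (n, y) ∈ p') :
    ∃ g : INat M → FP M, IntF M g ∧ (g 0).1 = p₀ ∧
      ∀ n, Q (g n).1 ∧ (g n).1 ⊆ (g n.succ).1 ∧ W n (g n.succ).1 ∧ ∃ y, (n, y) ∈ (g n.succ).1 := by
  have hwo := (IWo.nat (M := M)).prod (IWo.nat (M := M))
  obtain ⟨g, hg, hg0, hgs⟩ := hwo.fins.dc
    (R := fun (n : INat M) (a b : FP M) => a.1 ⊆ b.1 ∧ W n b.1 ∧ ∃ y : INat M, (n, y) ∈ b.1)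
    (int_R hW) (Q := fun (n : INat M) (a : FP M) => Q a.1) (int_Q hQ)
    (a0 := ⟨p₀, hfin p₀ h0⟩) h0 (by
      intro n a ha
      obtain ⟨p', h1, h2, h3, h4⟩ := hstep a.1 n ha
      exact ⟨⟨p', hfin p' h1⟩, h1, h2, h3, h4⟩)
  exact ⟨g, hg, by rw [hg0], hgs⟩

theorem chain_holds : P_CHAIN.{u} := by
  intro M _ _ Q W p₀ hQ hW h0 hfin hfun hstep
  obtain ⟨g, hg, hg0, hgs⟩ := chain_step hQ hW h0 hfin hstep
  have hQn : ∀ n, Q (g n).1 := fun n => (hgs n).1
  have hmono : ∀ n m, m ≤ n → (g m).1 ⊆ (g n).1 := by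
    refine INat.ind (p := fun n => ∀ m, m ≤ n → (g m).1 ⊆ (g n).1) (int_mono hg) ?_ ?_
    · intro m hm
      have : m = 0 := le_antisymm hm (INat.zero_le m)
      rw [this]
      exact fun _ h => h
    · intro n ih m hm
      rcases hm.lt_or_eq with h1 | rfl
      · have h2 := ih m (INat.lt_succ_iff.1 h1)
        have h3 := (hgs n).2.1
        exact fun x hx => h3 x (h2 x hx)
      · exact fun _ h => h
  have huni : ∀ m n x y y', (x, y) ∈ (g m).1 → (x, y') ∈ (g n).1 → y = y' := by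
    intro m n x y y' h1 h2
    rcases le_total m n with h | h
    · exact hfun _ x y y' (hQn n) (hmono n m h _ h1) h2
    · exact hfun _ x y y' (hQn m) h1 (hmono m n h _ h2)
  have hex : ∀ x, ∃! y, (x, y) ∈ (g x.succ).1 := by
    intro x
    obtain ⟨y, hy⟩ := (hgs x).2.2.2
    exact ⟨y, hy, fun y' hy' => huni _ _ _ _ _ hy' hy⟩
  let f : IFun M (INat M) (INat M) := ⟨fun x => the (fun y => (x, y) ∈ (g x.succ).1) 0, int_f hg⟩
  have hf1 : ∀ x, (x, f x) ∈ (g x.succ).1 := fun x => the_spec (hex x)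
  have hf2 : ∀ n x y, (x, y) ∈ (g n).1 → f x = y := fun n x y h => huni _ _ _ _ _ (hf1 x) h
  refine ⟨f, ?_, ?_, ?_⟩
  · intro x y h
    refine hf2 0 x y ?_
    rw [hg0]
    exact h
  · intro n
    exact ⟨(g n.succ).1, hQn _, (hgs n).2.2.1, hf2 _⟩
  · intro B hB
    obtain ⟨n, hn⟩ := FinP.bound (M := M) (p := fun m => m ∈ B) ⟨B, hB, fun m hm => hm⟩
    refine ⟨(g n.succ).1, hQn _, fun x hx => ?_, hf2 _⟩
    have h1 : x.succ ≤ n.succ := by
      rcases INat.succ_le' x n.succ (INat.lt_succ_iff.2 (hn x hx)) with h3 | h3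
      · exact h3.le
      · exact h3.le
    exact hmono _ _ h1 _ (hf1 x)

end Pool.Agent.W45.OC
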